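import Mathlib

namespace Pool.Agent.Results.MP_cf426b_al.RankThree

/-- the commuting graph: non-central elements, distinct ones adjacent when they commute -/
def commGraph (S : Type) [Semigroup S] : SimpleGraph {x : S // ¬ ∀ s, x * s = s * x} where
  Adj x y := x ≠ y ∧ x.1 * y.1 = y.1 * x.1
  symm := ⟨fun _ _ h => ⟨h.1.symm, h.2.symm⟩⟩
  loopless := ⟨fun _ h => h.1 rfl⟩

inductive T (n : ℕ)
  | g (e : ℤˣ) (c : ZMod n)
  | x (i j : ZMod n)
  | o

variable {n : ℕ}

def Z (k : ZMod n) : Prop := k = 0 ∨ k = 1 ∨ k = -1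

def u (e : ℤˣ) : ZMod n := ((e : ℤ) : ZMod n)

@[simp] lemma u_one : (u 1 : ZMod n) = 1 := by simp [u]
@[simp] lemma u_neg : (u (-1) : ZMod n) = -1 := by simp [u]

lemma Z_neg (k : ZMod n) : Z (-k) ↔ Z k := by
  simp only [Z, neg_eq_iff_eq_neg, neg_zero, neg_neg]; tauto

open Classical in
noncomputable instance : Mul (T n) := ⟨fun a b => match a, b with
  | .g e c, .g f d => .g (e * f) (u e * d + c)
  | .g e c, .x i j => .x (u e * i + c) j
  | .x i j, .g e c => .x i (u e * (j + c))
  | .x i j, .x k l => if Z (j + k) then .o else .x i l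
  | _, _ => .o⟩

@[simp] lemma gg (e f) (c d : ZMod n) : T.g e c * T.g f d = .g (e * f) (u e * d + c) := rfl
@[simp] lemma gx (e) (c i j : ZMod n) : T.g e c * T.x i j = .x (u e * i + c) j := rfl
@[simp] lemma xg (e) (c i j : ZMod n) : T.x i j * T.g e c = .x i (u e * (j + c)) := rfl
open Classical in
lemma xx (i j k l : ZMod n) : T.x i j * T.x k l = if Z (j + k) then .o else .x i l := rfl
@[simp] lemma mo (a : T n) : a * T.o = .o := by cases a <;> rfl
@[simp] lemma om (a : T n) : T.o * a = .o := by cases a <;> rfl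

noncomputable instance : Semigroup (T n) where
  mul_assoc a b w := by
    rcases a with ⟨e, c⟩ | ⟨i, j⟩ | _ <;> rcases b with ⟨f, d⟩ | ⟨k, l⟩ | _ <;>
      rcases w with ⟨h, m⟩ | ⟨p, q⟩ | _ <;> (try simp only [gg, gx, xg, mo, om])
    · rcases Int.units_eq_one_or e with rfl | rfl <;> rcases Int.units_eq_one_or f with rfl | rfl <;>
        simp <;> ring
    · rcases Int.units_eq_one_or e with rfl | rfl <;> rcases Int.units_eq_one_or f with rfl | rfl <;>
        simp <;> ring
    · simp only [xx]; split_ifs <;> simp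
    · rcases Int.units_eq_one_or f with rfl | rfl <;> rcases Int.units_eq_one_or h with rfl | rfl <;>
        simp <;> ring
    · have : Z (u f * (j + d) + p) ↔ Z (j + (u f * p + d)) := by
        rcases Int.units_eq_one_or f with rfl | rfl
        · rw [show u 1 * (j + d) + p = j + (u 1 * p + d) by simp; ring]
        · rw [← Z_neg, show -(u (-1) * (j + d) + p) = j + (u (-1) * p + d) by simp; ring]
      rw [xx, xx]
      by_cases hz : Z (j + (u f * p + d))
      · rw [if_pos hz, if_pos (this.2 hz)]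
      · rw [if_neg hz, if_neg (mt this.1 hz)]
    · simp only [xx]; split_ifs <;> simp
    · simp only [xx]; split_ifs <;> simp [xx, *]

lemma gen [NeZero n] :
    Subsemigroup.closure ({T.g 1 1, T.g (-1) 0, T.x 0 0} : Set (T n)) = ⊤ := by
  set C := Subsemigroup.closure ({T.g 1 1, T.g (-1) 0, T.x 0 0} : Set (T n))
  have a1 : T.g 1 1 ∈ C := Subsemigroup.subset_closure (by simp)
  have a2 : T.g (-1) 0 ∈ C := Subsemigroup.subset_closure (by simp)
  have a3 : T.x 0 0 ∈ C := Subsemigroup.subset_closure (by simp)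
  have b : ∀ t : ℕ, T.g 1 ((t : ZMod n) + 1) ∈ C := fun t => by
    induction t with
    | zero => simpa using a1
    | succ t ih => simpa [add_comm] using C.mul_mem ih a1
  have b' : ∀ c, T.g 1 c ∈ C := fun c => by simpa using b (c - 1).val
  refine eq_top_iff.2 fun v _ => ?_
  rcases v with ⟨e, c⟩ | ⟨i, j⟩ | _
  · rcases Int.units_eq_one_or e with rfl | rfl
    · exact b' c
    · simpa using C.mul_mem (b' c) a2
  · simpa using C.mul_mem (C.mul_mem (b' i) a3) (b' j)
  · simpa [xx, Z] using C.mul_mem a3 a3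

def P (t : ℕ) : T n → Prop
  | .x i j => ∃ z : ℤ, |z| ≤ 4 * t ∧ 2 * (i + j) = z
  | _ => True

lemma step {t : ℕ} {a b} (h : (commGraph (T n)).Adj a b) (hb : P t b.1) : P (t + 1) a.1 := by
  obtain ⟨a, ha⟩ := a
  obtain ⟨b, hb'⟩ := b
  obtain ⟨h1, h2⟩ := h
  rcases a with _ | ⟨i, j⟩ | _
  · trivial
  swap
  · trivial
  rcases b with ⟨e, c⟩ | ⟨k, l⟩ | _
  · simp only [xg, gx, T.x.injEq] at h2
    rcases Int.units_eq_one_or e with rfl | rfl
    · have : c = 0 := by simpa using h2.1
      subst this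
      exact absurd (fun s => by cases s <;> simp) hb'
    · refine ⟨0, by simp; positivity, ?_⟩
      simp only [u_neg] at h2
      push_cast; linear_combination h2.1 - h2.2
  · obtain ⟨z, z1, z2⟩ := hb
    have zz : ∀ k : ZMod n, Z k → ∃ y : ℤ, |y| ≤ 1 ∧ k = y := by
      rintro k (rfl | rfl | rfl)
      exacts [⟨0, by simp, by simp⟩, ⟨1, by simp, by simp⟩, ⟨-1, by simp, by simp⟩]
    simp only [xx] at h2
    split_ifs at h2 with c1 c2 c2
    · obtain ⟨y, y1, y2⟩ := zz _ c1
      obtain ⟨w, w1, w2⟩ := zz _ c2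
      refine ⟨2 * y + 2 * w - z, ?_, by push_cast; linear_combination 2 * y2 + 2 * w2 - z2⟩
      rw [abs_le] at *; push_cast; omega
    · simp only [T.x.injEq] at h2
      exact absurd (by simp [h2.1, h2.2]) h1
  · exact absurd (fun s => by simp) hb'

theorem result : ∃ d : ℕ, 1 ≤ d ∧ ∀ D : ℕ, ∃ (S : Type) (_ : Semigroup S) (A : Finset S),
    A.card ≤ d ∧ Subsemigroup.closure (A : Set S) = ⊤ ∧ (commGraph S).Connected ∧
      (D : ℕ∞) ≤ (commGraph S).ediam := by
  classical
  refine ⟨3, by norm_num, fun D => ⟨T (8 * D + 4), inferInstance, {T.g 1 1, T.g (-1) 0, T.x 0 0},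
    Finset.card_le_three, by simpa using gen, ?_⟩⟩
  have nz : ∀ z : ℤ, 0 < z → z < 8 * D + 4 → (z : ZMod (8 * D + 4)) ≠ 0 := fun z h1 h2 h => by
    rw [ZMod.intCast_zmod_eq_zero_iff_dvd] at h
    have := Int.le_of_dvd h1 h
    push_cast at this; omega
  set m : ZMod (8 * D + 4) := 4 * D + 2 with hm
  have m0 : m ≠ 0 := by simpa using nz (4 * D + 2) (by omega) (by omega)
  have m2 : m + m = 0 := by
    have := ZMod.natCast_self (8 * D + 4)
    push_cast at this; linear_combination this
  have nx : ∀ i j : ZMod (8 * D + 4), ¬ ∀ s, T.x i j * s = s * T.x i j := fun i j h => by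
    have := h (.g 1 1)
    simp only [xg, gx, T.x.injEq, u_one, one_mul, add_eq_left] at this
    exact nz 1 (by omega) (by omega) (by simpa using this.2)
  have ns : ¬ ∀ s, T.g 1 m * s = s * T.g 1 m := fun h => m0 (by have := h (.x 0 0); simp at this; exact this.1)
  have nr : ∀ c : ZMod (8 * D + 4), ¬ ∀ s, T.g (-1) c * s = s * T.g (-1) c := fun c h => by
    have := h (.g 1 1)
    simp only [gg, T.g.injEq, u_one, u_neg] at this
    exact nz 2 (by omega) (by omega) (by push_cast; linear_combination -this.2)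
  have re : ∀ a b : {x : T (8 * D + 4) // ¬ ∀ s, x * s = s * x}, a.1 * b.1 = b.1 * a.1 →
      (commGraph _).Reachable a b := fun a b h => by
    by_cases e : a = b
    · rw [e]
    · exact SimpleGraph.Adj.reachable ⟨e, h⟩
  have rg : ∀ e c h, (commGraph _).Reachable ⟨T.g e c, h⟩ ⟨_, ns⟩ := fun e c h => re _ _ (by
    rcases Int.units_eq_one_or e with rfl | rfl
    · simp [add_comm]
    · simp only [gg, T.g.injEq, u_one, u_neg]
      exact ⟨by simp, by linear_combination -m2⟩)
  have rx : ∀ (t : ℕ) i j, (commGraph _).Reachable ⟨_, nx i j⟩ ⟨_, nx (i + t) j⟩ := fun t i j => by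
    induction t with
    | zero => simp
    | succ t ih =>
      refine ih.trans ((re _ ⟨_, nx (-j) (-(i + t))⟩ (by simp [xx, Z])).trans (re _ _ ?_))
      simp only [xx]
      rw [if_pos (show Z _ from Or.inr (Or.inl (by push_cast; ring))),
        if_pos (show Z _ from Or.inl (by ring))]
  have all : ∀ v, (commGraph _).Reachable v ⟨_, ns⟩ := by
    rintro ⟨⟨e, c⟩ | ⟨i, j⟩ | _, h⟩
    · exact rg e c h
    · refine (rx (-j - i).val i j).trans ((re _ ⟨_, nr (-2 * j)⟩ ?_).trans (rg _ _ _))
      simp only [xg, gx, T.x.injEq, u_neg, ZMod.natCast_zmod_val]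
      constructor <;> ring
    · exact absurd (fun s => by simp) h
  have : Nonempty {x : T (8 * D + 4) // ¬ ∀ s, x * s = s * x} := ⟨⟨_, ns⟩⟩
  refine ⟨⟨fun a b => (all a).trans (all b).symm⟩, le_trans (le_iInf fun w => ?_)
    (SimpleGraph.edist_le_ediam (u := ⟨_, nx (2 * D + 1) 0⟩) (v := ⟨_, ns⟩))⟩
  have key : ∀ (a b) (w : (commGraph (T (8 * D + 4))).Walk a b), P 0 b.1 → P w.length a.1 := by
    intro a b w hb
    induction w with
    | nil => exact hb
    | cons h _ ih => exact step h (ih hb)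
  obtain ⟨z, z1, z2⟩ := key _ _ w trivial
  by_contra hlt
  have : w.length < D := by exact_mod_cast not_le.1 hlt
  rw [abs_le] at z1
  exact nz (4 * D + 2 - z) (by omega) (by omega) (by push_cast; linear_combination z2)

end Pool.Agent.Results.MP_cf426b_al.RankThree
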